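import Mathlib
import Pool.Agent.H7Conway2

set_option autoImplicit false
open TopologicalSpace

namespace Pool.Agent.Results.MP_44afb3_an.NotReflexive

universe u

section
variable {H : Type u} [NormedAddCommGroup H] [InnerProductSpace ℂ H]

/-- A Boolean algebra of subspaces of `H`: a family `E` of closed subspaces containing `{0}` and `H`,
closed under `M ⊓ N = M ∩ N` and `M ⊔ N = closed span of M ∪ N` (these are Mathlib's lattice
operations on closed submodules), distributive, and with complements in `E`. -/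
def IsBooleanFamily (E : Set (ClosedSubmodule ℂ H)) : Prop :=
  ⊥ ∈ E ∧ ⊤ ∈ E ∧ (∀ M ∈ E, ∀ N ∈ E, M ⊓ N ∈ E) ∧ (∀ M ∈ E, ∀ N ∈ E, M ⊔ N ∈ E) ∧
  (∀ M ∈ E, ∀ N ∈ E, ∀ L ∈ E, M ⊓ (N ⊔ L) = (M ⊓ N) ⊔ (M ⊓ L)) ∧
  (∀ M ∈ E, ∃ M' ∈ E, M ⊓ M' = ⊥ ∧ M ⊔ M' = ⊤)

/-- `E` is complete: every subfamily has a supremum in `E` with respect to inclusion. -/
def IsCompleteFamily (E : Set (ClosedSubmodule ℂ H)) : Prop :=
  ∀ S ⊆ E, ∃ N ∈ E, (∀ M ∈ S, M ≤ N) ∧ ∀ N' ∈ E, (∀ M ∈ S, M ≤ N') → N ≤ N'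

/-- `Alg E`: the bounded operators leaving every member of `E` invariant. -/
def Alg (E : Set (ClosedSubmodule ℂ H)) : Set (H →L[ℂ] H) :=
  {T | ∀ M ∈ E, ∀ x ∈ M, T x ∈ M}

/-- `Lat S`: the closed subspaces invariant under every operator in `S`. -/
def Lat (S : Set (H →L[ℂ] H)) : Set (ClosedSubmodule ℂ H) :=
  {M | ∀ T ∈ S, ∀ x ∈ M, T x ∈ M}

/-- `E` is reflexive: `E = Lat (Alg E)`. -/
def IsReflexive (E : Set (ClosedSubmodule ℂ H)) : Prop := E = Lat (Alg E)

end

/-- Two families are lattice isomorphic: there is a bijection preserving `⊓` and `⊔`. -/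
def LatticeIsomorphic {H K : Type*} [NormedAddCommGroup H] [InnerProductSpace ℂ H]
    [NormedAddCommGroup K] [InnerProductSpace ℂ K]
    (E : Set (ClosedSubmodule ℂ H)) (F : Set (ClosedSubmodule ℂ K)) : Prop :=
  ∃ e : E → F, Function.Bijective e ∧
    (∀ M N L : E, L.val = M.val ⊓ N.val → (e L).val = (e M).val ⊓ (e N).val) ∧
    (∀ M N L : E, L.val = M.val ⊔ N.val → (e L).val = (e M).val ⊔ (e N).val)

/-- There is a complete Boolean algebra of subspaces of the separable Hilbert space `ℓ²(ℕ)` which is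
not lattice isomorphic to any reflexive Boolean algebra of subspaces of any Hilbert space. -/
theorem result :
    ∃ E : Set (ClosedSubmodule ℂ (lp (fun _ : ℕ => ℂ) 2)),
      IsBooleanFamily E ∧ IsCompleteFamily E ∧
      ∀ (K : Type u) [NormedAddCommGroup K] [InnerProductSpace ℂ K] [CompleteSpace K]
        (F : Set (ClosedSubmodule ℂ K)), IsBooleanFamily F → IsReflexive F →
        ¬ LatticeIsomorphic E F := by
  obtain ⟨A, hinf, hsup, hbot, htop, hcompl, hord⟩ := H7Conway2.exists_A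
  refine ⟨Set.range (fun U => H7Conway2.coord (A U)), ?_, ?_, ?_⟩
  · refine ⟨⟨⊥, ?_⟩, ⟨⊤, ?_⟩, ?_, ?_, ?_, ?_⟩
    · simp only [hbot, H7Conway2.coord_empty]
    · simp only [htop, H7Conway2.coord_univ]
    · rintro _ ⟨U, rfl⟩ _ ⟨W, rfl⟩
      refine ⟨U ⊓ W, ?_⟩
      simp only [H7Conway2.coord_inf, hinf]
    · rintro _ ⟨U, rfl⟩ _ ⟨W, rfl⟩
      refine ⟨U ⊔ W, ?_⟩
      simp only [H7Conway2.coord_sup, hsup]
    · rintro _ ⟨U, rfl⟩ _ ⟨W, rfl⟩ _ ⟨Z, rfl⟩
      simp only [H7Conway2.coord_sup, H7Conway2.coord_inf]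
      rw [Set.inter_union_distrib_left]
    · rintro _ ⟨U, rfl⟩
      obtain ⟨U', hU'⟩ := hcompl U
      refine ⟨H7Conway2.coord (A U'), ⟨U', rfl⟩, ?_, ?_⟩
      · simp only [H7Conway2.coord_inf, hU', Set.inter_compl_self, H7Conway2.coord_empty]
      · simp only [H7Conway2.coord_sup, hU', Set.union_compl_self, H7Conway2.coord_univ]
  · intro S hS
    refine ⟨H7Conway2.coord (A (sSup {U | H7Conway2.coord (A U) ∈ S})), ⟨_, rfl⟩, ?_, ?_⟩
    · intro M hM
      obtain ⟨U, rfl⟩ := hS hM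
      simp only
      rw [H7Conway2.coord_le, hord]
      unfold H7Conway.Le
      rw [← Set.subset_empty_iff]
      rintro y ⟨hy1, hy2⟩
      apply hy2
      apply subset_closure
      have h1 : U ≤ sSup {U | H7Conway2.coord (A U) ∈ S} := le_sSup hM
      exact h1 hy1
    · rintro _ ⟨W, rfl⟩ hW
      rw [H7Conway2.coord_le, hord]
      unfold H7Conway.Le
      rw [← Set.subset_empty_iff]
      rintro y ⟨hy1, hy2⟩
      rw [Opens.coe_sSup, Set.mem_iUnion] at hy1
      obtain ⟨U, hy1⟩ := hy1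
      rw [Set.mem_iUnion] at hy1
      obtain ⟨hU, hy1⟩ := hy1
      have h1 := hW _ hU
      rw [H7Conway2.coord_le, hord] at h1
      unfold H7Conway.Le at h1
      have h2 : y ∈ (U : Set H7Conway.B) ∩ (closure (W : Set H7Conway.B))ᶜ := ⟨hy1, hy2⟩
      rw [h1] at h2
      exact h2
  · intro K _ _ _ F hF hR hiso
    obtain ⟨e, ⟨he1, he2⟩, hei, _⟩ := hiso
    let G : Opens H7Conway.B → ClosedSubmodule ℂ K := fun U => (e ⟨H7Conway2.coord (A U), ⟨U, rfl⟩⟩ : F).1
    have hle : ∀ U W, G U ≤ G W ↔ H7Conway.Le U W := by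
      intro U W
      rw [← hord]
      constructor
      · intro h
        have h1 : H7Conway2.coord (A (U ⊓ W)) = H7Conway2.coord (A U) ⊓ H7Conway2.coord (A W) := by
          rw [H7Conway2.coord_inf, hinf]
        have h2 := hei ⟨_, ⟨U, rfl⟩⟩ ⟨_, ⟨W, rfl⟩⟩ ⟨_, ⟨U ⊓ W, rfl⟩⟩ h1
        have h3 : G (U ⊓ W) = G U := by
          change (e ⟨_, ⟨U ⊓ W, rfl⟩⟩ : F).1 = _
          rw [h2]
          exact inf_eq_left.mpr h
        have h4 := he1 (Subtype.ext h3)
        have h5 : H7Conway2.coord (A (U ⊓ W)) = H7Conway2.coord (A U) := congrArg Subtype.val h4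
        have h6 := H7Conway2.coord_inj h5
        rw [hinf] at h6
        exact Set.inter_eq_left.mp h6
      · intro h
        have h1 : H7Conway2.coord (A U) = H7Conway2.coord (A U) ⊓ H7Conway2.coord (A W) := by
          rw [H7Conway2.coord_inf, Set.inter_eq_left.mpr h]
        have h2 := hei ⟨_, ⟨U, rfl⟩⟩ ⟨_, ⟨W, rfl⟩⟩ ⟨_, ⟨U, rfl⟩⟩ h1
        exact inf_eq_left.mp h2.symm
    refine H7Conway.core F ?_ ?_ hF.1 hF.2.1 G (fun U => (e _).2) ?_ hle
    · intro f hf
      rw [hR]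
      intro T hT x hx
      rw [ClosedSubmodule.mem_iInf] at hx ⊢
      intro n
      exact hT (f n) (hf n) x (hx n)
    · intro f hf
      rw [hR]
      intro T hT x hx
      rw [ClosedSubmodule.mem_iSup] at hx ⊢
      have h1 : Set.MapsTo T ((⨆ n, (f n).toSubmodule : Submodule ℂ K) : Set K)
          ((⨆ n, (f n).toSubmodule : Submodule ℂ K) : Set K) := by
        intro y hy
        have h2 : (⨆ n, (f n).toSubmodule) ≤ (⨆ n, (f n).toSubmodule).comap (T : K →ₗ[ℂ] K) := by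
          apply iSup_le
          intro n z hz
          exact (le_iSup (fun n => (f n).toSubmodule) n) (hT (f n) (hf n) z hz)
        exact h2 hy
      exact h1.closure T.continuous hx
    · intro M hM
      obtain ⟨⟨_, U, rfl⟩, h⟩ := he2 ⟨M, hM⟩
      exact ⟨U, congrArg Subtype.val h⟩

end Pool.Agent.Results.MP_44afb3_an.NotReflexive
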